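import Mathlib

/-!
# Squad DFM (problem MP_df7fe8_co): strictly monotone maps into the integers, definitions

* `LCB P` : `P` is locally chain-bounded.
* `HasMap P` : there is a strictly monotone map `P → ℤ`.
* `coi P`, `cfl P` : coinitiality and cofinality of `P`.
* `bNum` : the bounding number.
* `El I J`, `Ok w`, `le` : the elements, the admissible elements and the order of the lattice
  `L(I,J,w)`.
-/

set_option autoImplicit false

namespace Pool.Agent.DFM

/-- locally chain-bounded: for all `x`, `y` the chains in `[x,y]` have bounded size -/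
def LCB (P : Type) [PartialOrder P] : Prop :=
  ∀ x y : P, ∃ n : ℕ, ∀ c : Finset P, (∀ z ∈ c, x ≤ z ∧ z ≤ y) →
    IsChain (fun a b => a ≤ b) (c : Set P) → c.card ≤ n

/-- there is a strictly monotone map into the integers -/
def HasMap (P : Type) [PartialOrder P] : Prop := ∃ f : P → ℤ, ∀ x y : P, x < y → f x < f y

/-- `S` is coinitial in `P` -/
def Coinit {P : Type} [PartialOrder P] (S : Set P) : Prop := ∀ x : P, ∃ s ∈ S, s ≤ x

/-- `S` is cofinal in `P` -/
def Cofin {P : Type} [PartialOrder P] (S : Set P) : Prop := ∀ x : P, ∃ s ∈ S, x ≤ s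

/-- the coinitiality of `P`: the least cardinality of a coinitial subset -/
noncomputable def coi (P : Type) [PartialOrder P] : Cardinal.{0} :=
  sInf {c : Cardinal.{0} | ∃ S : Set P, Coinit S ∧ Cardinal.mk S = c}

/-- the cofinality of `P`: the least cardinality of a cofinal subset -/
noncomputable def cfl (P : Type) [PartialOrder P] : Cardinal.{0} :=
  sInf {c : Cardinal.{0} | ∃ S : Set P, Cofin S ∧ Cardinal.mk S = c}

/-- the family `F` of functions `ℕ → ℕ` is unbounded modulo finite sets -/
def Unb (F : Set (ℕ → ℕ)) : Prop :=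
  ∀ g : ℕ → ℕ, ∃ φ ∈ F, ∀ m : ℕ, ∃ n : ℕ, m ≤ n ∧ g n < φ n

/-- the bounding number: the least cardinality of a family of functions `ℕ → ℕ` which is unbounded
modulo finite sets -/
noncomputable def bNum : Cardinal.{0} :=
  sInf {c : Cardinal.{0} | ∃ F : Set (ℕ → ℕ), Unb F ∧ Cardinal.mk F = c}

/-- raw elements of the lattice `L(I,J,w)` -/
inductive El (I J : Type) : Type
  | low (G : Finset I) : El I J
  | mid : El I J
  | top (F : Finset J) : El I J
  | ch (i : I) (j : J) (n : ℕ) : El I J

/-- admissible elements -/
def Ok {I J : Type} (w : I → J → ℕ) : El I J → Prop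
  | El.low G => G.Nonempty
  | El.mid => True
  | El.top F => F.Nonempty
  | El.ch i j n => n < w i j

/-- the order -/
def le {I J : Type} : El I J → El I J → Prop
  | El.low G, El.low G' => G' ⊆ G
  | El.low _, El.mid => True
  | El.low _, El.top _ => True
  | El.low G, El.ch i _ _ => i ∈ G
  | El.mid, El.low _ => False
  | El.mid, El.mid => True
  | El.mid, El.top _ => True
  | El.mid, El.ch _ _ _ => False
  | El.top _, El.low _ => False
  | El.top _, El.mid => False
  | El.top F, El.top F' => F ⊆ F'
  | El.top _, El.ch _ _ _ => False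
  | El.ch _ _ _, El.low _ => False
  | El.ch _ _ _, El.mid => False
  | El.ch _ j _, El.top F => j ∈ F
  | El.ch i j n, El.ch i' j' n' => i = i' ∧ j = j' ∧ n ≤ n'

end Pool.Agent.DFM
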