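import Pool.Agent.DFM.Defs

/-!
# Squad DFM (problem MP_df7fe8_co): rows

THEOREM.  For cardinals `κ`, `μ`: every locally chain-bounded lattice with coinitiality `κ` and
cofinality `μ` has a strictly monotone map into the integers if and only if `κ < ℵ₀`, or `μ < ℵ₀`, or
`κ = ℵ₀` and `μ < 𝔟`, or `μ = ℵ₀` and `κ < 𝔟`.

Every docstring contains a complete proof.
-/

set_option autoImplicit false

namespace Pool.Agent.DFM

/-! ## Positive part -/

/-- HTF (easy-medium).  The height function.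
Proof.  For `x ≤ y` let `m x y` be the largest cardinality of a chain (Finset) in `[x,y]` (it exists by
`LCB`, `{x}` is one), `h x y = m x y - 1`, and `h x y = 0` if not `x ≤ y`.  If `x < y` then `{x,y}` is a chain
with two elements.  If `x ≤ y ≤ z`, `c` is a chain in `[x,y]` and `c'` a chain in `[y,z]`, then `c ∪ c'` is a
chain in `[x,z]` and `c ∩ c' ⊆ {y}`, so `m x y + m y z ≤ m x z + 1`. -/
def HtfStmt : Prop := ∀ (P : Type) [PartialOrder P], LCB P → ∃ h : P → P → ℕ,
  (∀ x y, x < y → 1 ≤ h x y) ∧ ∀ x y z, x ≤ y → y ≤ z → h x y + h y z ≤ h x z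

/-- BOT (easy, uses HTF).  A least element.
Proof.  `f x = h b x`; for `x < y`: `h b y ≥ h b x + h x y ≥ h b x + 1`. -/
def BotStmt : Prop := ∀ (P : Type) [PartialOrder P], LCB P → (∃ b : P, ∀ x, b ≤ x) → HasMap P

/-- CBN (medium, uses HTF).  **Countable coinitiality and cofinality less than the bounding number.**
Proof.  `P` empty: trivial.  `h` from HTF.  `S` countable coinitial, `S` nonempty, so `S` is the range of a
sequence `o : ℕ → P`.  `D` cofinal with `#D < bNum`.  For `d ∈ D` let `φ_d n = h (o n) d`.  The set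
`{φ_d : d ∈ D}` has cardinality at most `#D < bNum`, so it is not `Unb` (`csInf_le'`): there is `g` such
that for each `d ∈ D` there is `m_d` with `φ_d n ≤ g n` for all `n ≥ m_d`.  For `x : P` consider the set of
integers `A x = {(h (o n) x : ℤ) - g n - n : n with o n ≤ x}`.  It is nonempty.  It is bounded above: let
`x ≤ d ∈ D`; if `o n ≤ x` then `h (o n) x ≤ h (o n) d`, so the value is `≤ -n ≤ 0` for `n ≥ m_d`, and for the
finitely many `n < m_d` there is a common bound.  So `f x = sSup (A x)` exists and is attained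
(`Int.exists_greatest_of_bdd`).  If `x < y` and `f x` is attained at `n` then `o n ≤ y` and
`h (o n) y ≥ h (o n) x + 1`, so `f y ≥ f x + 1`. -/
def CbnStmt : Prop := ∀ (P : Type) [PartialOrder P] (S D : Set P), LCB P → Coinit S → S.Countable →
  Cofin D → Cardinal.mk D < bNum → HasMap P

/-- DUA (easy).  Duality. -/
def DuaStmt : Prop := ∀ (P : Type) [PartialOrder P], (LCB P → LCB Pᵒᵈ) ∧ coi Pᵒᵈ = cfl P ∧
  cfl Pᵒᵈ = coi P ∧ (HasMap Pᵒᵈ → HasMap P)

/-- ATT (easy).  The coinitiality and the cofinality are attained.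
Proof.  `csInf_mem`, the set contains `#(Set.univ)`. -/
def AttStmt : Prop := ∀ (P : Type) [PartialOrder P],
  (∃ S : Set P, Coinit S ∧ Cardinal.mk S = coi P) ∧ ∃ S : Set P, Cofin S ∧ Cardinal.mk S = cfl P

/-- LEA (easy, uses ATT).  A lattice with finite coinitiality is empty or has a least element.
Proof.  `S` a finite coinitial set (ATT); if `P` is nonempty then so is `S`, and the infimum of `S` is
below every element. -/
def LeaStmt : Prop := ∀ (P : Type) [Lattice P], coi P < Cardinal.aleph0 → Nonempty P →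
  ∃ b : P, ∀ x, b ≤ x

/-! ## The lattice `L(I,J,w)` -/

/-- ORD (easy).  `le` is a partial order.  Proof.  Cases. -/
def OrdStmt : Prop := ∀ (I J : Type), (∀ x : El I J, le x x) ∧
  (∀ x y z : El I J, le x y → le y z → le x z) ∧ ∀ x y : El I J, le x y → le y x → x = y

/-- SUP (medium).  Joins.
Proof.  `low G ∨ low G' = low (G ∩ G')` if `G ∩ G'` is nonempty and `mid` otherwise; `low G ∨ mid = mid`;
`low G ∨ top F = top F`; `low G ∨ ch i j n = ch i j n` if `i ∈ G` and `top {j}` otherwise;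
`mid ∨ mid = mid`; `mid ∨ top F = top F`; `mid ∨ ch i j n = top {j}`; `top F ∨ top F' = top (F ∪ F')`;
`top F ∨ ch i j n = top (insert j F)`; `ch i j n ∨ ch i' j' n' = ch i j (max n n')` if `i = i'`, `j = j'`
and `top {j, j'}` otherwise. -/
def SupStmt : Prop := ∀ (I J : Type) (w : I → J → ℕ) (x y : El I J), Ok w x → Ok w y →
  ∃ z : El I J, Ok w z ∧ le x z ∧ le y z ∧ ∀ t : El I J, Ok w t → le x t → le y t → le z t

/-- INF (medium).  Meets.
Proof.  Dual to SUP: `low G ∧ low G' = low (G ∪ G')`; `low G ∧ mid = low G`; `low G ∧ top F = low G`;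
`low G ∧ ch i j n = low (insert i G)`, but `= low G` if `i ∈ G` (the same); `mid ∧ mid = mid`;
`mid ∧ top F = mid`; `mid ∧ ch i j n = low {i}`; `top F ∧ top F' = top (F ∩ F')` if this is nonempty and
`mid` otherwise; `top F ∧ ch i j n = ch i j n` if `j ∈ F` and `low {i}` otherwise;
`ch i j n ∧ ch i' j' n' = ch i j (min n n')` if `i = i'`, `j = j'` and `low {i, i'}` otherwise. -/
def InfStmt : Prop := ∀ (I J : Type) (w : I → J → ℕ) (x y : El I J), Ok w x → Ok w y →
  ∃ z : El I J, Ok w z ∧ le z x ∧ le z y ∧ ∀ t : El I J, Ok w t → le t x → le t y → le t z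

/-- ICF (medium).  Intervals are finite.
Proof.  An element `z` with `le x z`, `le z y` is of one of the forms: `low G'` with `G' ⊆ G` if
`x = low G` (the finite set `G.powerset`), `mid`, `top F'` with `F' ⊆ F` if `y = top F`, `ch i j n` with
`n < w i j` and (`i ∈ G` if `x = low G`, otherwise `x = ch i j m`) and (`j ∈ F` if `y = top F`, otherwise
`y = ch i j m`).  All these sets are finite. -/
def IcfStmt : Prop := ∀ (I J : Type) (w : I → J → ℕ) (x y : El I J),
  {z : El I J | Ok w z ∧ le x z ∧ le z y}.Finite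

/-- GAP (easy-medium).  The values of a strictly monotone map.
Proof.  `low {i} < ch i j 0 < ch i j 1 < ... < ch i j (w i j - 1) < top {j}`. -/
def GapStmt : Prop := ∀ (I J : Type) (w : I → J → ℕ) (f : El I J → ℤ),
  (∀ x y : El I J, Ok w x → Ok w y → le x y → x ≠ y → f x < f y) →
  ∀ i j, (w i j : ℤ) < f (El.top {j}) - f (El.low {i})

/-- CIN (medium).  The coinitiality is `#I`.
Proof.  `S = {low G}` is coinitial and `Cardinal.mk (Finset I) = #I` (`Cardinal.mk_finset_of_infinite`).
Let `T` be a set of admissible elements such that every admissible element is above one of `T`.  For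
`i : I` there is `t ∈ T` with `le t (low {i})`, so `t = low G` with `i ∈ G`.  So `I` is the union of the sets
`G`, `low G ∈ T`, finite sets: if `T` is finite then `I` is finite, a contradiction; if `T` is infinite then
`#I ≤ #T * ℵ₀ = #T`. -/
def CinStmt : Prop := ∀ (I J : Type) (w : I → J → ℕ) [Infinite I] [Infinite J],
  (∃ T : Set (El I J), (∀ t ∈ T, Ok w t) ∧ (∀ x : El I J, Ok w x → ∃ t ∈ T, le t x) ∧
    Cardinal.mk T = Cardinal.mk I) ∧
  ∀ T : Set (El I J), (∀ t ∈ T, Ok w t) → (∀ x : El I J, Ok w x → ∃ t ∈ T, le t x) →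
    Cardinal.mk I ≤ Cardinal.mk T

/-- COF (medium).  The cofinality is `#J`.
Proof.  Dual to CIN, with `{top F}`. -/
def CofStmt : Prop := ∀ (I J : Type) (w : I → J → ℕ) [Infinite I] [Infinite J],
  (∃ T : Set (El I J), (∀ t ∈ T, Ok w t) ∧ (∀ x : El I J, Ok w x → ∃ t ∈ T, le x t) ∧
    Cardinal.mk T = Cardinal.mk J) ∧
  ∀ T : Set (El I J), (∀ t ∈ T, Ok w t) → (∀ x : El I J, Ok w x → ∃ t ∈ T, le x t) →
    Cardinal.mk J ≤ Cardinal.mk T

/-- CRD (easy-medium).  The cardinality.
Proof.  `El I J` injects into `Finset I ⊕ Unit ⊕ Finset J ⊕ (I × J × ℕ)`; `Cardinal.mk_finset_of_infinite`,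
`Cardinal.mul_eq_max`, `Cardinal.add_eq_max`. -/
def CrdStmt : Prop := ∀ (I J : Type) [Infinite I] [Infinite J],
  Cardinal.mk (El I J) ≤ max (Cardinal.mk I) (Cardinal.mk J)

/-- PKG (medium, uses ORD SUP INF ICF GAP CIN COF CRD).  The lattice `L(I,J,w)`.
Proof.  `L = {x : El I J // Ok w x}` with the order `le` (ORD), joins and meets chosen from SUP and INF
(`Classical.choose`, or `Lattice.mk'`-like constructions), `LCB` since intervals are finite (ICF: a chain in
`[x,y]` is a subset of a finite set). -/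
def PkgStmt : Prop := ∀ (I J : Type) (w : I → J → ℕ) [Infinite I] [Infinite J],
  ∃ (L : Type) (_ : Lattice L) (a : I → L) (b : J → L), (∀ x y : L, (Set.Icc x y).Finite) ∧ LCB L ∧
    coi L = Cardinal.mk I ∧ cfl L = Cardinal.mk J ∧
    Cardinal.mk L ≤ max (Cardinal.mk I) (Cardinal.mk J) ∧
    ∀ f : L → ℤ, (∀ x y : L, x < y → f x < f y) → ∀ i j, (w i j : ℤ) < f (b j) - f (a i)

/-! ## Negative part -/

/-- UNB (medium, uses PKG).  **Countable coinitiality, cofinality at least the bounding number.**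
Proof.  `F` an unbounded family with `#F = bNum` (`csInf_mem`; the set is nonempty: `Set.univ` is
unbounded), `J` a type with `#J = μ` (`Quotient.out`), `J` infinite since `bNum ≥ ℵ₀` (a finite family is
bounded by the sum of its members), a surjection `p : J → F` (as `#F ≤ #J`), `I = ℕ`, `w n j = p j n`, PKG.
If `f` is strictly monotone then `p j n < f (b j) - f (a n)` for all `n`, `j`.  Let
`g n = (f (a n)).natAbs + n`.  There is `φ = p j` in `F` with `g n < φ n` for arbitrarily large `n`; choose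
`n ≥ (f (b j)).natAbs`: `φ n < f (b j) - f (a n) ≤ n + (f (a n)).natAbs = g n`, a contradiction. -/
def UnbStmt : Prop := ∀ μ : Cardinal.{0}, bNum ≤ μ → ∃ (L : Type) (_ : Lattice L), LCB L ∧
  (∀ x y : L, (Set.Icc x y).Finite) ∧ coi L = Cardinal.aleph0 ∧ cfl L = μ ∧
  Cardinal.mk L ≤ μ ∧ ¬ HasMap L

/-- ALE (medium, uses PKG).  **Uncountable coinitiality and cofinality.**
Proof.  `I`, `J` with `#I = κ`, `#J = μ`.  Let `W` be the type of the ordinals `< ω₁` (for example
`Set.Iio (Ordinal.omega 1)` or `(Cardinal.aleph 1).ord.ToType`), a well-order with countable initial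
segments and `#W = ℵ₁`; take surjections `r : I → W`, `s : J → W`.  For `β : W` let `e_β` be an injection of
the countable set `Set.Iio β` into `ℕ`; `w i j = e_(s j) (r i)` if `r i < s j` and `0` otherwise.  PKG.
Let `f` be strictly monotone.  Choose `i_α` with `r i_α = α` and `j_β` with `s j_β = β`.  There are `c`, `d`
in `ℤ` such that `A = {α : f (a i_α) = c}` and `B = {β : f (b j_β) = d}` are uncountable (otherwise `W` would
be a countable union of countable sets).  `A` contains a countable infinite set `A₀`, `A₀` is bounded by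
some `γ` in `W`, and since `B` is uncountable and `Set.Iic γ` countable there is `β ∈ B` above `γ`.  `e_β` is
injective on the infinite set `A₀`, so there is `α ∈ A₀` with `e_β α ≥ d - c`, while
`e_β α < f (b j_β) - f (a i_α) = d - c`. -/
def AleStmt : Prop := ∀ κ μ : Cardinal.{0}, Cardinal.aleph0 < κ → Cardinal.aleph0 < μ →
  ∃ (L : Type) (_ : Lattice L), LCB L ∧ (∀ x y : L, (Set.Icc x y).Finite) ∧ coi L = κ ∧
    cfl L = μ ∧ Cardinal.mk L ≤ max κ μ ∧ ¬ HasMap L

/-- NEG (easy-medium, uses UNB ALE DUA).  Failure.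
Proof.  If neither of the four conditions holds then `ℵ₀ ≤ κ, μ`.  Both uncountable: ALE.  `κ = ℵ₀`, then
`bNum ≤ μ`: UNB.  `μ = ℵ₀`, `bNum ≤ κ`: the order dual of the lattice of UNB for `κ`
(`HasMap Lᵒᵈᵒᵈ → HasMap Lᵒᵈ` is not needed: if `Lᵒᵈ` has a map then `L` has one, DUA). -/
def NegStmt : Prop := ∀ κ μ : Cardinal.{0},
  ¬ (κ < Cardinal.aleph0 ∨ μ < Cardinal.aleph0 ∨ (κ = Cardinal.aleph0 ∧ μ < bNum) ∨
    (μ = Cardinal.aleph0 ∧ κ < bNum)) →
  ∃ (L : Type) (_ : Lattice L), LCB L ∧ (∀ x y : L, (Set.Icc x y).Finite) ∧ coi L = κ ∧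
    cfl L = μ ∧ Cardinal.mk L ≤ max κ μ ∧ ¬ HasMap L

/-- POS (easy-medium, uses BOT CBN DUA ATT LEA).  Existence of maps.
Proof.  `L` empty: trivial.  `κ < ℵ₀`: LEA, BOT.  `μ < ℵ₀`: the dual of `L` (DUA).  `κ = ℵ₀`, `μ < bNum`:
ATT, CBN.  `μ = ℵ₀`, `κ < bNum`: CBN for the dual. -/
def PosStmt : Prop := ∀ (L : Type) [Lattice L], LCB L →
  (coi L < Cardinal.aleph0 ∨ cfl L < Cardinal.aleph0 ∨ (coi L = Cardinal.aleph0 ∧ cfl L < bNum) ∨
    (cfl L = Cardinal.aleph0 ∧ coi L < bNum)) → HasMap L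

/-- FIN (easy, uses NEG POS).  The classification. -/
def FinStmt : Prop := ∀ κ μ : Cardinal.{0},
  ((κ < Cardinal.aleph0 ∨ μ < Cardinal.aleph0 ∨ (κ = Cardinal.aleph0 ∧ μ < bNum) ∨
      (μ = Cardinal.aleph0 ∧ κ < bNum)) →
    ∀ (L : Type) [Lattice L], LCB L → coi L = κ → cfl L = μ → HasMap L) ∧
  (¬ (κ < Cardinal.aleph0 ∨ μ < Cardinal.aleph0 ∨ (κ = Cardinal.aleph0 ∧ μ < bNum) ∨
      (μ = Cardinal.aleph0 ∧ κ < bNum)) →
    ∃ (L : Type) (_ : Lattice L), (∀ x y : L, (Set.Icc x y).Finite) ∧ coi L = κ ∧ cfl L = μ ∧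
      Cardinal.mk L ≤ max κ μ ∧ ¬ HasMap L)

end Pool.Agent.DFM
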